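import Pool.Agent.Helper90.ZD.P7

open Finset

namespace Pool.Agent.Helper90.ZD

private theorem theta_le (ε : ℝ) (hε : 0 < ε) (hε' : ε ≤ 1 / 2) :
    ∃ θ : ℝ, 0 < θ ∧ θ ≤ 1 ∧ 2 * θ * (4 + Real.log (1 / θ)) ≤ ε ^ 2 / 2 := by
  have hr0 : 0 < ε ^ 2 / 24 := by positivity
  have hr1 : ε ^ 2 / 24 ≤ 1 := by nlinarith
  refine ⟨(ε ^ 2 / 24) ^ 2, by positivity, by nlinarith, ?_⟩
  set r := ε ^ 2 / 24 with hr
  have h1 : Real.log (1 / r ^ 2) ≤ 2 * (1 / r) := by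
    have e : (1 : ℝ) / r ^ 2 = (1 / r) ^ 2 := (one_div_pow r 2).symm
    rw [e, Real.log_pow]
    have := Real.log_le_sub_one_of_pos (show 0 < 1 / r by positivity)
    push_cast
    linarith
  have h2 : 2 * r ^ 2 * (4 + Real.log (1 / r ^ 2)) ≤ 2 * r ^ 2 * (4 + 2 * (1 / r)) :=
    mul_le_mul_of_nonneg_left (by linarith) (by positivity)
  have h3 : 2 * r ^ 2 * (4 + 2 * (1 / r)) = 8 * r ^ 2 + 4 * r := by
    field_simp
    ring
  have h4 : r ^ 2 ≤ r := by nlinarith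
  have h5 : ε ^ 2 = 24 * r := by rw [hr]; ring
  rw [h5]
  linarith

/-- P8: THE ZERO ESTIMATE. -/
theorem zeroEst (ε κ : ℝ) (hε : 0 < ε) (hε' : ε ≤ 1 / 2) (hκ : 0 < κ) (hκ' : κ ≤ 1 / 2) :
    ∃ n0 : ℕ, ∀ n : ℕ, n0 ≤ n → ∃ (W : ℝ) (C0 : ℕ), 0 < W ∧ ∀ C D : ℕ, C0 ≤ C →
      (D : ℝ) ≤ (1 - κ) * C → ∀ t : Fin n → ℝ,
      (∀ i j, i ≠ j → W / C ≤ ‖ee (t i) - ee (t j)‖) → ∀ (β : ℝ)
      (p : MvPolynomial (Fin n) ℂ), p.totalDegree ≤ D →
      (∀ c ∈ Sig n C, Int.fract (∑ i, t i * c i - β) < ε → pv p c = 0) →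
      ∀ c ∈ Sig n C, pv p c = 0 := by
  obtain ⟨θ, hθ, hθ', hth⟩ := theta_le ε hε hε'
  refine ⟨⌈100 / (θ * κ)⌉₊ + 1, fun n hn => ?_⟩
  have hn0 : 0 < n := by omega
  have hnR : (0 : ℝ) < n := Nat.cast_pos.mpr hn0
  have hθn : 100 ≤ θ * n * κ := by
    have h1 : (100 / (θ * κ) : ℝ) ≤ n :=
      (Nat.le_ceil _).trans (by exact_mod_cast (by omega : ⌈100 / (θ * κ)⌉₊ ≤ n))
    rw [div_le_iff₀ (by positivity)] at h1
    linarith
  have hε2 : 0 < ε ^ 2 := by positivity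
  have hε4 : ε ^ 2 ≤ 1 / 4 := by nlinarith
  -- the constants
  set A : ℝ := (2 ^ (n + 1) + 1) * (2 * κ / ε ^ 2 + 1) * (2 / κ) ^ (n + 1) with hA
  have hApos : 0 < A := by positivity
  have hlim : Filter.Tendsto (fun C : ℕ => A * ((κ / 2 * (C : ℝ)) ^ (n + 1) *
      Real.exp (-(κ / 2 * (C : ℝ))))) Filter.atTop (nhds (A * 0)) := by
    refine Filter.Tendsto.const_mul A ?_
    refine (Real.tendsto_pow_mul_exp_neg_atTop_nhds_zero (n + 1)).comp ?_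
    exact Filter.Tendsto.const_mul_atTop (by positivity) tendsto_natCast_atTop_atTop
  rw [mul_zero] at hlim
  obtain ⟨C1, hC1⟩ := Filter.eventually_atTop.mp (hlim.eventually (gt_mem_nhds one_pos))
  refine ⟨4 * Real.sqrt n * ε ^ 2 / κ, max (max C1 1) (⌈2 / κ⌉₊ + 1), by positivity,
    fun C D hC hD t hsep β p hp hz => ?_⟩
  have hC1' : C1 ≤ C := (le_max_left _ _).trans ((le_max_left _ _).trans hC)
  have hCpos : 1 ≤ C := (le_max_right _ _).trans ((le_max_left _ _).trans hC)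
  have hC2 : ⌈2 / κ⌉₊ + 1 ≤ C := (le_max_right _ _).trans hC
  have hCR : (1 : ℝ) ≤ C := by exact_mod_cast hCpos
  have hκC : 2 ≤ κ * C := by
    have h1 : (2 / κ : ℝ) ≤ C := (Nat.le_ceil _).trans (by exact_mod_cast (by omega : ⌈2 / κ⌉₊ ≤ C))
    rw [div_le_iff₀ hκ] at h1
    linarith
  -- the number `M`
  set M : ℕ := ⌊κ * C / ε ^ 2⌋₊ with hM
  have hM1 : (M : ℝ) ≤ κ * C / ε ^ 2 := Nat.floor_le (by positivity)
  have hM2 : κ * C / ε ^ 2 < M + 1 := Nat.lt_floor_add_one _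
  have hM3 : ε ^ 2 * M ≤ κ * C := by
    rw [le_div_iff₀ hε2] at hM1
    linarith
  have hM4 : κ * C < ε ^ 2 * M + ε ^ 2 := by
    rw [div_lt_iff₀ hε2] at hM2
    linarith
  have hMhalf : κ * C / (2 * ε ^ 2) ≤ M := by
    rw [div_le_iff₀ (by positivity)]
    nlinarith
  have hMpos : 0 < M := by
    have : (0 : ℝ) < M := lt_of_lt_of_le (by positivity) hMhalf
    exact_mod_cast this
  have hDR : (D : ℝ) ≤ C := hD.trans (by nlinarith)
  have hnum : Real.exp (-(ε ^ 2 * M / 2)) * ((C : ℝ) + 1) ^ n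
      + Real.exp (ε ^ 2 * M / 2 - κ * C) < 1 / (2 * (M : ℝ) + 1) := by
    rw [lt_div_iff₀ (by positivity)]
    have h1 : Real.exp (-(ε ^ 2 * M / 2)) ≤ 2 * Real.exp (-(κ / 2 * (C : ℝ))) := by
      have e1 : -(ε ^ 2 * M / 2) ≤ 1 / 2 + -(κ / 2 * (C : ℝ)) := by linarith
      refine (Real.exp_le_exp.mpr e1).trans ?_
      rw [Real.exp_add]
      refine mul_le_mul_of_nonneg_right ?_ (Real.exp_pos _).le
      have h3 : Real.exp (1 / 2) ^ 2 = Real.exp 1 := by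
        rw [← Real.exp_nat_mul]
        norm_num
      have h4 := Real.exp_one_lt_d9
      have h5 := Real.exp_pos (1 / 2)
      nlinarith
    have h2 : Real.exp (ε ^ 2 * M / 2 - κ * C) ≤ Real.exp (-(κ / 2 * (C : ℝ))) :=
      Real.exp_le_exp.mpr (by linarith)
    have h3 : ((C : ℝ) + 1) ^ n ≤ 2 ^ n * (C : ℝ) ^ n := by
      rw [← mul_pow]
      exact pow_le_pow_left₀ (by positivity) (by linarith) n
    have h4 : (1 : ℝ) ≤ (C : ℝ) ^ n := one_le_pow₀ hCR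
    have h5 : 2 * (M : ℝ) + 1 ≤ (2 * κ / ε ^ 2 + 1) * C := by
      have : 2 * (M : ℝ) ≤ 2 * κ / ε ^ 2 * C := by
        calc 2 * (M : ℝ) ≤ 2 * (κ * C / ε ^ 2) := by linarith
          _ = 2 * κ / ε ^ 2 * C := by ring
      linarith
    set E := Real.exp (-(κ / 2 * (C : ℝ))) with hE
    have hEpos : 0 < E := Real.exp_pos _
    have h6 : Real.exp (-(ε ^ 2 * M / 2)) * ((C : ℝ) + 1) ^ n + Real.exp (ε ^ 2 * M / 2 - κ * C) ≤
        (2 ^ (n + 1) + 1) * (C : ℝ) ^ n * E := by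
      have e1 : Real.exp (-(ε ^ 2 * M / 2)) * ((C : ℝ) + 1) ^ n ≤ 2 * E * (2 ^ n * (C : ℝ) ^ n) :=
        mul_le_mul h1 h3 (by positivity) (by positivity)
      have e2 : Real.exp (ε ^ 2 * M / 2 - κ * C) ≤ (C : ℝ) ^ n * E :=
        h2.trans (by nlinarith)
      calc _ ≤ 2 * E * (2 ^ n * (C : ℝ) ^ n) + (C : ℝ) ^ n * E := add_le_add e1 e2
        _ = (2 ^ (n + 1) + 1) * (C : ℝ) ^ n * E := by ring
    have h7 := hC1 C hC1'
    calc _ ≤ (2 ^ (n + 1) + 1) * (C : ℝ) ^ n * E * ((2 * κ / ε ^ 2 + 1) * C) :=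
          mul_le_mul h6 h5 (by positivity) (by positivity)
      _ = A * ((κ / 2 * (C : ℝ)) ^ (n + 1) * E) := by
        rw [hA, mul_pow, pow_succ (C : ℝ) n]
        have : (2 / κ) ^ (n + 1) * (κ / 2) ^ (n + 1) = 1 := by
          rw [← mul_pow]
          have : 2 / κ * (κ / 2) = 1 := by field_simp
          rw [this, one_pow]
        linear_combination (-(2 ^ (n + 1) + 1) * (2 * κ / ε ^ 2 + 1) * ((C : ℝ) ^ n * C) * E) * this
      _ < 1 := h7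
  refine zero_core hn0 C D M (by omega) hMpos (by exact_mod_cast hDR) ε κ θ
    (4 * Real.sqrt n * ε ^ 2 / κ / C) hε hε' hκ hκ' (by linarith) (by positivity) hθ hθ' ?_ hθn hth
    hnum t hsep β p hp hz
  have h1 : 2 * Real.sqrt n ≤ M * (4 * Real.sqrt n * ε ^ 2 / κ / C) := by
    calc 2 * Real.sqrt n = κ * C / (2 * ε ^ 2) * (4 * Real.sqrt n * ε ^ 2 / κ / C) := by
          have : (C : ℝ) ≠ 0 := by positivity
          field_simp
          ring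
      _ ≤ _ := mul_le_mul_of_nonneg_right hMhalf (by positivity)
  calc 4 * (n : ℝ) = (2 * Real.sqrt n) ^ 2 := by
        rw [mul_pow, Real.sq_sqrt hnR.le]
        norm_num
    _ ≤ _ := pow_le_pow_left₀ (by positivity) h1 2

end Pool.Agent.Helper90.ZD
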