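import Mathlib

/-!
Zero estimate on Bohr sets in a simplex (MP_4ab349_nt, project ZD).
Definitions only.
-/

open Finset

namespace Pool.Agent.Helper90.ZD

/-- The points `c : Fin n → ℕ` with `∑ c i = C`. -/
abbrev Sig (n C : ℕ) : Finset (Fin n → ℕ) := Finset.piAntidiag Finset.univ C

/-- The form of degree `C` with Taylor coefficients `H c`. -/
noncomputable def hval {n : ℕ} (H : (Fin n → ℕ) → ℂ) (C : ℕ) (x : Fin n → ℂ) : ℂ :=
  ∑ c ∈ Sig n C, (Nat.multinomial Finset.univ c : ℂ) * H c * ∏ i, x i ^ c i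

/-- The squared Bombieri norm. -/
noncomputable def bomb {n : ℕ} (H : (Fin n → ℕ) → ℂ) (C : ℕ) : ℝ :=
  ∑ c ∈ Sig n C, (Nat.multinomial Finset.univ c : ℝ) * ‖H c‖ ^ 2

/-- Values of a polynomial at points with natural coordinates. -/
noncomputable def pv {n : ℕ} (p : MvPolynomial (Fin n) ℂ) (c : Fin n → ℕ) : ℂ :=
  MvPolynomial.eval (fun i => (c i : ℂ)) p

/-- `exp (2 π i t)`. -/
noncomputable def ee (t : ℝ) : ℂ := Complex.exp (2 * Real.pi * t * Complex.I)

/-- Coefficient of the test polynomial. -/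
noncomputable def tc (M : ℕ) (E : Finset ℤ) (k : ℤ) : ℝ :=
  (Nat.choose (2 * M) (M + k).toNat : ℝ) / 4 ^ M * ∏ l ∈ E, (1 - (k : ℝ) / (l : ℝ))

end Pool.Agent.Helper90.ZD
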