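import Pool.Agent.Helper90.ZD.Defs

open Finset

namespace Pool.Agent.Helper90.ZD

/-- P2: Cauchy-Schwarz and the multinomial theorem. -/
theorem hval_le {n : ℕ} (H : (Fin n → ℕ) → ℂ) (C : ℕ) (x : Fin n → ℂ)
    (hx : ∑ i, ‖x i‖ ^ 2 = 1) (q : (Fin n → ℕ) → ℂ) (Q : ℝ) (hQ : 0 ≤ Q)
    (hq : ∀ c ∈ Sig n C, H c ≠ 0 → ‖q c‖ ≤ Q) :
    ‖hval (fun c => H c * q c) C x‖ ≤ Q * Real.sqrt (bomb H C) := by
  have h1 : ‖hval (fun c => H c * q c) C x‖ ≤
      ∑ c ∈ Sig n C, Q * ((Real.sqrt (Nat.multinomial Finset.univ c : ℝ) * ‖H c‖) *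
        (Real.sqrt (Nat.multinomial Finset.univ c : ℝ) * ∏ i, ‖x i‖ ^ c i)) := by
    refine (norm_sum_le _ _).trans (Finset.sum_le_sum fun c hc => ?_)
    have hm : (0 : ℝ) ≤ (Nat.multinomial Finset.univ c : ℝ) := Nat.cast_nonneg _
    have hP : (0 : ℝ) ≤ ∏ i, ‖x i‖ ^ c i := Finset.prod_nonneg fun i _ => by positivity
    have h2 : ‖(Nat.multinomial Finset.univ c : ℂ) * (H c * q c) * ∏ i, x i ^ c i‖ =
        (Nat.multinomial Finset.univ c : ℝ) * (‖H c‖ * ‖q c‖) * ∏ i, ‖x i‖ ^ c i := by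
      rw [norm_mul, norm_mul, norm_mul, norm_prod, Complex.norm_natCast]
      simp only [norm_pow]
    have h3 : ‖H c‖ * ‖q c‖ ≤ ‖H c‖ * Q := by
      by_cases h0 : H c = 0
      · simp [h0]
      · exact mul_le_mul_of_nonneg_left (hq c hc h0) (norm_nonneg _)
    have h4 : Q * ((Real.sqrt (Nat.multinomial Finset.univ c : ℝ) * ‖H c‖) *
        (Real.sqrt (Nat.multinomial Finset.univ c : ℝ) * ∏ i, ‖x i‖ ^ c i)) =
        (Nat.multinomial Finset.univ c : ℝ) * (‖H c‖ * Q) * ∏ i, ‖x i‖ ^ c i := by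
      have h5 := Real.mul_self_sqrt hm
      linear_combination (Q * ‖H c‖ * ∏ i, ‖x i‖ ^ c i) * h5
    change ‖(Nat.multinomial Finset.univ c : ℂ) * (H c * q c) * ∏ i, x i ^ c i‖ ≤ _
    rw [h2, h4]
    exact mul_le_mul_of_nonneg_right (mul_le_mul_of_nonneg_left h3 hm) hP
  refine h1.trans ?_
  rw [← Finset.mul_sum]
  refine mul_le_mul_of_nonneg_left ?_ hQ
  refine (Real.sum_mul_le_sqrt_mul_sqrt _ _ _).trans ?_
  have h6 : ∑ c ∈ Sig n C, (Real.sqrt (Nat.multinomial Finset.univ c : ℝ) * ‖H c‖) ^ 2 =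
      bomb H C := by
    refine Finset.sum_congr rfl fun c _ => ?_
    rw [mul_pow, Real.sq_sqrt (Nat.cast_nonneg _)]
  have h7 : ∑ c ∈ Sig n C, (Real.sqrt (Nat.multinomial Finset.univ c : ℝ) *
      ∏ i, ‖x i‖ ^ c i) ^ 2 = 1 := by
    have h8 := Finset.sum_pow_eq_sum_piAntidiag (Finset.univ : Finset (Fin n))
      (fun i => ‖x i‖ ^ 2) C
    rw [hx, one_pow] at h8
    rw [h8]
    refine Finset.sum_congr rfl fun c _ => ?_
    rw [mul_pow, Real.sq_sqrt (Nat.cast_nonneg _), ← Finset.prod_pow]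
    congr 1
    refine Finset.prod_congr rfl fun i _ => ?_
    rw [← pow_mul, ← pow_mul, mul_comm]
  rw [h6, h7, Real.sqrt_one, mul_one]

/-- homogeneity -/
theorem hval_smul {n : ℕ} (H : (Fin n → ℕ) → ℂ) (C : ℕ) (b : ℂ) (x : Fin n → ℂ) :
    hval H C (fun i => b * x i) = b ^ C * hval H C x := by
  unfold hval
  rw [Finset.mul_sum]
  refine Finset.sum_congr rfl fun c hc => ?_
  have h1 : ∑ i, c i = C := (Finset.mem_piAntidiag.mp hc).1
  have h2 : ∏ i, (b * x i) ^ c i = b ^ C * ∏ i, x i ^ c i := by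
    simp only [mul_pow]
    rw [Finset.prod_mul_distrib, Finset.prod_pow_eq_pow_sum, h1]
  rw [h2]
  ring

private theorem ee_zero_h45 : ee 0 = 1 := by simp [ee]

private theorem ee_add_h45 (a b : ℝ) : ee (a + b) = ee a * ee b := by
  unfold ee
  rw [← Complex.exp_add]
  congr 1
  push_cast
  ring

private theorem ee_sum_h45 {ι : Type*} (s : Finset ι) (f : ι → ℝ) :
    ee (∑ i ∈ s, f i) = ∏ i ∈ s, ee (f i) := by
  classical
  induction s using Finset.induction_on with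
  | empty => simp [ee_zero_h45]
  | insert a s ha ih => rw [Finset.sum_insert ha, Finset.prod_insert ha, ee_add_h45, ih]

private theorem ee_mul_nat_h45 (a : ℝ) (m : ℕ) : ee (a * m) = ee a ^ m := by
  unfold ee
  rw [← Complex.exp_nat_mul]
  congr 1
  push_cast
  ring

/-- translation by unimodular numbers, exponent `k` -/
theorem hval_twist {n : ℕ} (H : (Fin n → ℕ) → ℂ) (C : ℕ) (t : Fin n → ℝ) (k : ℤ)
    (x : Fin n → ℂ) :
    hval H C (fun i => ee (t i) ^ k * x i)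
      = hval (fun c => H c * ee (∑ i, t i * c i) ^ k) C x := by
  unfold hval
  refine Finset.sum_congr rfl fun c hc => ?_
  have h2 : ∏ i, (ee (t i) ^ k * x i) ^ c i =
      ee (∑ i, t i * c i) ^ k * ∏ i, x i ^ c i := by
    simp only [mul_pow]
    rw [Finset.prod_mul_distrib, ee_sum_h45, ← Finset.prod_zpow]
    congr 1
    refine Finset.prod_congr rfl fun i _ => ?_
    rw [ee_mul_nat_h45, ← zpow_natCast, ← zpow_natCast, ← zpow_mul, ← zpow_mul, mul_comm]
  rw [h2]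
  ring

/-- the maximum on the sphere is attained -/
theorem exists_max {n : ℕ} (hn : 0 < n) (H : (Fin n → ℕ) → ℂ) (C : ℕ) :
    ∃ x : Fin n → ℂ, ∑ i, ‖x i‖ ^ 2 = 1 ∧
      ∀ y : Fin n → ℂ, ∑ i, ‖y i‖ ^ 2 = 1 → ‖hval H C y‖ ≤ ‖hval H C x‖ := by
  let S : Set (Fin n → ℂ) := {x | ∑ i, ‖x i‖ ^ 2 = 1}
  have hcl : IsClosed S := by
    refine isClosed_eq ?_ continuous_const
    exact continuous_finsetSum _ fun i _ => (continuous_apply i).norm.pow 2
  have hbd : Bornology.IsBounded S := by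
    refine (Metric.isBounded_closedBall (x := (0 : Fin n → ℂ)) (r := 1)).subset fun x hx => ?_
    rw [mem_closedBall_zero_iff, pi_norm_le_iff_of_nonneg zero_le_one]
    intro i
    have h1 : ‖x i‖ ^ 2 ≤ 1 := by
      have hx' : ∑ i, ‖x i‖ ^ 2 = 1 := hx
      rw [← hx']
      exact Finset.single_le_sum (f := fun i => ‖x i‖ ^ 2) (fun j _ => by positivity)
        (Finset.mem_univ i)
    nlinarith [norm_nonneg (x i)]
  have hK : IsCompact S := Metric.isCompact_of_isClosed_isBounded hcl hbd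
  have hne : S.Nonempty := by
    refine ⟨fun i => if i = ⟨0, hn⟩ then 1 else 0, ?_⟩
    change ∑ i : Fin n, ‖(if i = ⟨0, hn⟩ then (1 : ℂ) else 0)‖ ^ 2 = 1
    rw [Finset.sum_eq_single (⟨0, hn⟩ : Fin n)]
    · simp
    · intro i _ hi
      simp [hi]
    · intro h
      exact absurd (Finset.mem_univ _) h
  have hcont : Continuous fun x : Fin n → ℂ => ‖hval H C x‖ := by
    refine Continuous.norm ?_
    unfold hval
    refine continuous_finsetSum _ fun c _ => ?_
    refine continuous_const.mul ?_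
    exact continuous_finsetProd _ fun i _ => (continuous_apply i).pow _
  obtain ⟨x, hx, hmax⟩ := hK.exists_isMaxOn hne hcont.continuousOn
  exact ⟨x, hx, fun y hy => hmax hy⟩

end Pool.Agent.Helper90.ZD
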