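import Pool.Agent.Helper90.ZD.Defs

open Finset

namespace Pool.Agent.Helper90.ZD

/-- `c! * c ^ d ≤ d! * c ^ c` for all natural numbers. -/
theorem p3a_fact (c d : ℕ) : c.factorial * c ^ d ≤ d.factorial * c ^ c := by
  rcases le_total d c with h | h
  · have h1 : (c - (c - d)).factorial * c.descFactorial (c - d) = c.factorial :=
      Nat.factorial_mul_descFactorial (Nat.sub_le c d)
    have h2 : c - (c - d) = d := Nat.sub_sub_self h
    rw [h2] at h1
    have h3 : c.descFactorial (c - d) ≤ c ^ (c - d) := Nat.descFactorial_le_pow c (c - d)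
    calc c.factorial * c ^ d = d.factorial * c.descFactorial (c - d) * c ^ d := by rw [h1]
      _ ≤ d.factorial * c ^ (c - d) * c ^ d := by gcongr
      _ = d.factorial * c ^ c := by
        rw [mul_assoc, ← pow_add, Nat.sub_add_cancel h]
  · have h1 : c.factorial * c ^ (d - c) ≤ d.factorial := Nat.factorial_mul_pow_sub_le_factorial h
    calc c.factorial * c ^ d = c.factorial * c ^ (d - c) * c ^ c := by
          rw [mul_assoc, ← pow_add, Nat.sub_add_cancel h]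
      _ ≤ d.factorial * c ^ c := by gcongr

theorem p3a_max {n : ℕ} (C : ℕ) (c d : Fin n → ℕ) (hc : c ∈ Sig n C) (hd : d ∈ Sig n C) :
    (Nat.multinomial Finset.univ d : ℝ) * ∏ i, ((c i : ℝ) / C) ^ d i ≤
      (Nat.multinomial Finset.univ c : ℝ) * ∏ i, ((c i : ℝ) / C) ^ c i := by
  rw [Finset.mem_piAntidiag] at hc hd
  have hcs : ∑ i, c i = C := hc.1
  have hds : ∑ i, d i = C := hd.1
  have e1 : (Nat.multinomial Finset.univ d : ℝ) * ∏ i, ((d i).factorial : ℝ) = (C.factorial : ℝ) := by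
    have := Nat.multinomial_spec Finset.univ d
    rw [hds] at this
    rw [mul_comm]
    exact_mod_cast this
  have e2 : (Nat.multinomial Finset.univ c : ℝ) * ∏ i, ((c i).factorial : ℝ) = (C.factorial : ℝ) := by
    have := Nat.multinomial_spec Finset.univ c
    rw [hcs] at this
    rw [mul_comm]
    exact_mod_cast this
  have pd : (0 : ℝ) < ∏ i, ((d i).factorial : ℝ) :=
    Finset.prod_pos (fun i _ => by exact_mod_cast Nat.factorial_pos (d i))
  have pc : (0 : ℝ) < ∏ i, ((c i).factorial : ℝ) :=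
    Finset.prod_pos (fun i _ => by exact_mod_cast Nat.factorial_pos (c i))
  have f1 : ∀ e : Fin n → ℕ, ∑ i, e i = C →
      ∏ i, ((c i : ℝ) / C) ^ e i = (∏ i, (c i : ℝ) ^ e i) / (C : ℝ) ^ C := by
    intro e he
    simp only [div_pow]
    rw [Finset.prod_div_distrib, Finset.prod_pow_eq_pow_sum, he]
  rw [f1 d hds, f1 c hcs]
  have key : (∏ i, ((c i).factorial : ℝ)) * ∏ i, (c i : ℝ) ^ d i ≤
      (∏ i, ((d i).factorial : ℝ)) * ∏ i, (c i : ℝ) ^ c i := by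
    rw [← Finset.prod_mul_distrib, ← Finset.prod_mul_distrib]
    apply Finset.prod_le_prod
    · intro i _
      positivity
    · intro i _
      exact_mod_cast p3a_fact (c i) (d i)
  have g1 : (Nat.multinomial Finset.univ d : ℝ) = (C.factorial : ℝ) / ∏ i, ((d i).factorial : ℝ) := by
    rw [eq_div_iff pd.ne']
    exact e1
  have g2 : (Nat.multinomial Finset.univ c : ℝ) = (C.factorial : ℝ) / ∏ i, ((c i).factorial : ℝ) := by
    rw [eq_div_iff pc.ne']
    exact e2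
  have hcc : (0 : ℝ) ≤ (C : ℝ) ^ C := by positivity
  rw [mul_div_assoc', mul_div_assoc']
  apply div_le_div_of_nonneg_right _ hcc
  rw [g1, g2, div_mul_eq_mul_div, div_mul_eq_mul_div, div_le_div_iff₀ pd pc]
  have hf : (0 : ℝ) ≤ (C.factorial : ℝ) := by positivity
  nlinarith [mul_le_mul_of_nonneg_left key hf]

theorem p3a_card {n : ℕ} (C : ℕ) : (Sig n C).card ≤ (C + 1) ^ n := by
  have h : Sig n C ⊆ Fintype.piFinset (fun _ : Fin n => Finset.range (C + 1)) := by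
    intro c hc
    rw [Finset.mem_piAntidiag] at hc
    rw [Fintype.mem_piFinset]
    intro i
    rw [Finset.mem_range, Nat.lt_succ_iff]
    calc c i ≤ ∑ j, c j := Finset.single_le_sum (f := c) (fun j _ => Nat.zero_le _) (Finset.mem_univ i)
      _ = C := hc.1
  calc (Sig n C).card ≤ (Fintype.piFinset (fun _ : Fin n => Finset.range (C + 1))).card :=
        Finset.card_le_card h
    _ = (C + 1) ^ n := by simp

/-- P3a: the type class bound. -/
theorem type_class {n : ℕ} (C : ℕ) (c : Fin n → ℕ) (hc : c ∈ Sig n C) (hC : 0 < C) :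
    1 / ((C : ℝ) + 1) ^ n ≤
      (Nat.multinomial Finset.univ c : ℝ) * ∏ i, ((c i : ℝ) / C) ^ c i := by
  have hcs : ∑ i, c i = C := by
    have := hc
    rw [Finset.mem_piAntidiag] at this
    exact this.1
  have hC' : (C : ℝ) ≠ 0 := by exact_mod_cast hC.ne'
  have h1 : ∑ i, ((c i : ℝ) / C) = 1 := by
    rw [← Finset.sum_div, div_eq_one_iff_eq hC']
    exact_mod_cast hcs
  have h2 : ∑ d ∈ Sig n C, (Nat.multinomial Finset.univ d : ℝ) * ∏ i, ((c i : ℝ) / C) ^ d i = 1 := by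
    have := Finset.sum_pow_eq_sum_piAntidiag (Finset.univ : Finset (Fin n)) (fun i => (c i : ℝ) / C) C
    rw [h1, one_pow] at this
    exact this.symm
  have h3 : (1 : ℝ) ≤ ((Sig n C).card : ℝ) *
      ((Nat.multinomial Finset.univ c : ℝ) * ∏ i, ((c i : ℝ) / C) ^ c i) := by
    rw [← h2, ← nsmul_eq_mul]
    exact Finset.sum_le_card_nsmul _ _ _ (fun d hd => p3a_max C c d hc hd)
  have h4 : (0 : ℝ) ≤ (Nat.multinomial Finset.univ c : ℝ) * ∏ i, ((c i : ℝ) / C) ^ c i := by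
    positivity
  have h5 : ((Sig n C).card : ℝ) ≤ ((C : ℝ) + 1) ^ n := by
    exact_mod_cast p3a_card (n := n) C
  rw [div_le_iff₀ (by positivity), mul_comm]
  exact h3.trans (mul_le_mul_of_nonneg_right h5 h4)

/-- Orthogonality of the powers of a primitive root of unity. -/
private theorem root_sum {N : ℕ} {ζ : ℂ} (hζ : IsPrimitiveRoot ζ N) (hN : 0 < N)
    {a b : ℕ} (ha : a < N) (hb : b < N) :
    ∑ j : Fin N, (ζ ^ (j : ℕ)) ^ a * ((ζ ^ (j : ℕ)) ^ b)⁻¹ = if a = b then (N : ℂ) else 0 := by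
  have h0 : ζ ≠ 0 := hζ.ne_zero hN.ne'
  split_ifs with h
  · subst h
    have : ∀ j : Fin N, (ζ ^ (j : ℕ)) ^ a * ((ζ ^ (j : ℕ)) ^ a)⁻¹ = 1 := fun j =>
      mul_inv_cancel₀ (pow_ne_zero _ (pow_ne_zero _ h0))
    simp [this]
  · set η : ℂ := ζ ^ a * (ζ ^ b)⁻¹ with hη
    have h1 : ∀ j : Fin N, (ζ ^ (j : ℕ)) ^ a * ((ζ ^ (j : ℕ)) ^ b)⁻¹ = η ^ (j : ℕ) := by
      intro j
      rw [hη, mul_pow, inv_pow, ← pow_mul, ← pow_mul, ← pow_mul, ← pow_mul,
        mul_comm (j : ℕ) a, mul_comm (j : ℕ) b]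
    have h2 : η ≠ 1 := by
      intro h2
      apply h
      apply hζ.pow_inj ha hb
      have h3 : ζ ^ a = (ζ ^ a * (ζ ^ b)⁻¹) * ζ ^ b := by
        rw [mul_assoc, inv_mul_cancel₀ (pow_ne_zero _ h0), mul_one]
      rw [h3, ← hη, h2, one_mul]
    have h4 : η ^ N = 1 := by
      rw [hη, mul_pow, inv_pow, ← pow_mul, ← pow_mul, mul_comm a N, mul_comm b N, pow_mul,
        pow_mul, hζ.pow_eq_one]
      simp
    simp_rw [h1]
    rw [Fin.sum_univ_eq_sum_range (fun j => η ^ j) N, geom_sum_eq h2, h4]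
    simp

/-- One coefficient of `hval` as an average over roots of unity. -/
private theorem coeff_avg {n : ℕ} (H : (Fin n → ℕ) → ℂ) (C : ℕ) {ζ : ℂ}
    (hζ : IsPrimitiveRoot ζ (C + 1)) (r : Fin n → ℂ) (c : Fin n → ℕ) (hc : c ∈ Sig n C) :
    ∑ ψ : Fin n → Fin (C + 1),
        hval H C (fun i => r i * ζ ^ (ψ i : ℕ)) * ∏ i, ((ζ ^ (ψ i : ℕ)) ^ c i)⁻¹
      = ((C + 1 : ℕ) : ℂ) ^ n *
        ((Nat.multinomial Finset.univ c : ℂ) * H c * ∏ i, r i ^ c i) := by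
  have hle : ∀ d ∈ Sig n C, ∀ i, d i < C + 1 := by
    intro d hd i
    rw [Finset.mem_piAntidiag] at hd
    have h1 : d i ≤ ∑ j, d j := Finset.single_le_sum (fun _ _ => Nat.zero_le _) (Finset.mem_univ i)
    exact Nat.lt_succ_of_le (h1.trans_eq hd.1)
  unfold hval
  simp_rw [Finset.sum_mul]
  rw [Finset.sum_comm]
  have key : ∀ d ∈ Sig n C,
      ∑ ψ : Fin n → Fin (C + 1),
        ((Nat.multinomial Finset.univ d : ℂ) * H d * ∏ i, (r i * ζ ^ (ψ i : ℕ)) ^ d i) *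
          ∏ i, ((ζ ^ (ψ i : ℕ)) ^ c i)⁻¹
      = if d = c then ((C + 1 : ℕ) : ℂ) ^ n *
        ((Nat.multinomial Finset.univ c : ℂ) * H c * ∏ i, r i ^ c i) else 0 := by
    intro d hd
    have h1 : ∀ ψ : Fin n → Fin (C + 1),
        ((Nat.multinomial Finset.univ d : ℂ) * H d * ∏ i, (r i * ζ ^ (ψ i : ℕ)) ^ d i) *
          ∏ i, ((ζ ^ (ψ i : ℕ)) ^ c i)⁻¹
        = ((Nat.multinomial Finset.univ d : ℂ) * H d * ∏ i, r i ^ d i) *
          ∏ i, ((ζ ^ (ψ i : ℕ)) ^ d i * ((ζ ^ (ψ i : ℕ)) ^ c i)⁻¹) := by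
      intro ψ
      simp_rw [mul_pow]
      rw [Finset.prod_mul_distrib, Finset.prod_mul_distrib]
      ring
    simp_rw [h1]
    rw [← Finset.mul_sum]
    have h2 : ∑ ψ : Fin n → Fin (C + 1),
        ∏ i, ((ζ ^ (ψ i : ℕ)) ^ d i * ((ζ ^ (ψ i : ℕ)) ^ c i)⁻¹)
        = ∏ i, ∑ j : Fin (C + 1), ((ζ ^ (j : ℕ)) ^ d i * ((ζ ^ (j : ℕ)) ^ c i)⁻¹) := by
      rw [Finset.prod_univ_sum, Fintype.piFinset_univ]
    rw [h2]
    have h3 : ∀ i, ∑ j : Fin (C + 1), ((ζ ^ (j : ℕ)) ^ d i * ((ζ ^ (j : ℕ)) ^ c i)⁻¹)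
        = if d i = c i then ((C + 1 : ℕ) : ℂ) else 0 := fun i =>
      root_sum hζ (Nat.succ_pos C) (hle d hd i) (hle c hc i)
    simp_rw [h3]
    split_ifs with h
    · subst h
      simp
      ring
    · obtain ⟨i, hi⟩ : ∃ i, d i ≠ c i := by
        by_contra hcon
        apply h
        funext i
        by_contra hi
        exact hcon ⟨i, hi⟩
      have h5 : ∏ i, (if d i = c i then ((C + 1 : ℕ) : ℂ) else 0) = 0 :=
        Finset.prod_eq_zero (Finset.mem_univ i) (if_neg hi)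
      rw [h5, mul_zero]
  rw [Finset.sum_congr rfl key, Finset.sum_ite_eq' (Sig n C) c, if_pos hc]

/-- P3b: one coefficient against the maximum on the sphere (average over the phases,
`x i = sqrt (c i / C) * (unit number)`). -/
theorem coeff_le {n : ℕ} (H : (Fin n → ℕ) → ℂ) (C : ℕ) (hC : 0 < C) (Mh : ℝ)
    (hM : ∀ x : Fin n → ℂ, ∑ i, ‖x i‖ ^ 2 = 1 → ‖hval H C x‖ ≤ Mh)
    (c : Fin n → ℕ) (hc : c ∈ Sig n C) :
    ((Nat.multinomial Finset.univ c : ℝ) * ‖H c‖) ^ 2 * ∏ i, ((c i : ℝ) / C) ^ c i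
      ≤ Mh ^ 2 := by
  have hζ := Complex.isPrimitiveRoot_exp (C + 1) (Nat.succ_ne_zero C)
  set ζ : ℂ := Complex.exp (2 * Real.pi * Complex.I / ((C + 1 : ℕ) : ℂ)) with hζdef
  have hnorm : ‖ζ‖ = 1 := hζ.norm'_eq_one (Nat.succ_ne_zero C)
  set r : Fin n → ℝ := fun i => Real.sqrt ((c i : ℝ) / C) with hr
  have hC' : (0 : ℝ) < C := by exact_mod_cast hC
  have hr0 : ∀ i, 0 ≤ r i := fun i => Real.sqrt_nonneg _
  have hr2 : ∀ i, r i ^ 2 = (c i : ℝ) / C := fun i =>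
    Real.sq_sqrt (div_nonneg (Nat.cast_nonneg _) hC'.le)
  have hcsum : ∑ i, c i = C := (Finset.mem_piAntidiag.mp hc).1
  have havg := coeff_avg H C hζ (fun i => ((r i : ℝ) : ℂ)) c hc
  -- every term of the average is at most `Mh`
  have hterm : ∀ ψ : Fin n → Fin (C + 1),
      ‖hval H C (fun i => ((r i : ℝ) : ℂ) * ζ ^ (ψ i : ℕ)) *
        ∏ i, ((ζ ^ (ψ i : ℕ)) ^ c i)⁻¹‖ ≤ Mh := by
    intro ψ
    have h1 : ‖∏ i, ((ζ ^ (ψ i : ℕ)) ^ c i)⁻¹‖ = 1 := by
      rw [norm_prod]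
      apply Finset.prod_eq_one
      intro i _
      rw [norm_inv, norm_pow, norm_pow, hnorm]
      simp
    rw [norm_mul, h1, mul_one]
    apply hM
    have h2 : ∀ i, ‖((r i : ℝ) : ℂ) * ζ ^ (ψ i : ℕ)‖ ^ 2 = (c i : ℝ) / C := by
      intro i
      rw [norm_mul, norm_pow, hnorm, one_pow, mul_one, Complex.norm_real, Real.norm_eq_abs,
        sq_abs, hr2]
    simp_rw [h2]
    rw [← Finset.sum_div, ← Nat.cast_sum, hcsum, div_self hC'.ne']
  have hsum : ‖((C + 1 : ℕ) : ℂ) ^ n *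
      ((Nat.multinomial Finset.univ c : ℂ) * H c * ∏ i, ((r i : ℝ) : ℂ) ^ c i)‖
      ≤ ((C + 1 : ℕ) : ℝ) ^ n * Mh := by
    rw [← havg]
    refine (norm_sum_le _ _).trans ((Finset.sum_le_sum fun ψ _ => hterm ψ).trans ?_)
    simp
  have hmain : (Nat.multinomial Finset.univ c : ℝ) * ‖H c‖ * ∏ i, r i ^ c i ≤ Mh := by
    have h3 : ‖((C + 1 : ℕ) : ℂ) ^ n *
        ((Nat.multinomial Finset.univ c : ℂ) * H c * ∏ i, ((r i : ℝ) : ℂ) ^ c i)‖
        = ((C + 1 : ℕ) : ℝ) ^ n *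
          ((Nat.multinomial Finset.univ c : ℝ) * ‖H c‖ * ∏ i, r i ^ c i) := by
      rw [norm_mul, norm_mul, norm_mul, norm_pow, norm_prod, Complex.norm_natCast,
        Complex.norm_natCast]
      congr 2
      apply Finset.prod_congr rfl
      intro i _
      rw [norm_pow, Complex.norm_real, Real.norm_eq_abs, abs_of_nonneg (hr0 i)]
    rw [h3] at hsum
    exact le_of_mul_le_mul_left hsum (pow_pos (by positivity) n)
  have hpos : 0 ≤ (Nat.multinomial Finset.univ c : ℝ) * ‖H c‖ * ∏ i, r i ^ c i :=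
    mul_nonneg (mul_nonneg (Nat.cast_nonneg _) (norm_nonneg _))
      (Finset.prod_nonneg fun i _ => pow_nonneg (hr0 i) _)
  have h4 : ((Nat.multinomial Finset.univ c : ℝ) * ‖H c‖) ^ 2 * ∏ i, ((c i : ℝ) / C) ^ c i
      = ((Nat.multinomial Finset.univ c : ℝ) * ‖H c‖ * ∏ i, r i ^ c i) ^ 2 := by
    rw [mul_pow _ (∏ i, r i ^ c i) 2, ← Finset.prod_pow]
    congr 1
    apply Finset.prod_congr rfl
    intro i _
    rw [← pow_mul, mul_comm (c i) 2, pow_mul, hr2]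
  rw [h4]
  exact pow_le_pow_left₀ hpos hmain 2

/-- P3: the Bombieri norm is at most a polynomial factor times the maximum. -/
theorem bomb_le {n : ℕ} (H : (Fin n → ℕ) → ℂ) (C : ℕ) (hC : 0 < C) (Mh : ℝ)
    (hM : ∀ x : Fin n → ℂ, ∑ i, ‖x i‖ ^ 2 = 1 → ‖hval H C x‖ ≤ Mh) :
    bomb H C ≤ ((C : ℝ) + 1) ^ (2 * n) * Mh ^ 2 := by
  have hK : (0 : ℝ) < ((C : ℝ) + 1) ^ n := by positivity
  have h1 : ∀ c ∈ Sig n C, (Nat.multinomial Finset.univ c : ℝ) * ‖H c‖ ^ 2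
      ≤ ((C : ℝ) + 1) ^ n * Mh ^ 2 := by
    intro c hc
    have h2 := type_class C c hc hC
    have h3 := coeff_le H C hC Mh hM c hc
    have h4 : 0 ≤ (Nat.multinomial Finset.univ c : ℝ) * ‖H c‖ ^ 2 :=
      mul_nonneg (Nat.cast_nonneg _) (sq_nonneg _)
    have h5 : ((Nat.multinomial Finset.univ c : ℝ) * ‖H c‖ ^ 2) * (1 / ((C : ℝ) + 1) ^ n)
        ≤ Mh ^ 2 := by
      refine (mul_le_mul_of_nonneg_left h2 h4).trans (le_trans (le_of_eq ?_) h3)
      ring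
    rw [mul_one_div, div_le_iff₀ hK] at h5
    linarith [mul_comm (Mh ^ 2) (((C : ℝ) + 1) ^ n)]
  unfold bomb
  refine (Finset.sum_le_sum h1).trans ?_
  rw [Finset.sum_const, nsmul_eq_mul, two_mul, pow_add, mul_assoc]
  have h6 : ((Sig n C).card : ℝ) ≤ ((C : ℝ) + 1) ^ n := by
    exact_mod_cast p3a_card (n := n) C
  exact mul_le_mul_of_nonneg_right h6 (mul_nonneg hK.le (sq_nonneg _))

end Pool.Agent.Helper90.ZD
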