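import Pool.Agent.Helper90.ZD.Defs

open Finset

namespace Pool.Agent.Helper90.ZD

theorem p4_diff {n : ℕ} (y : Fin n → ℂ) (A : MvPolynomial (Fin n) ℂ) :
    Differentiable ℂ (fun w : ℂ => MvPolynomial.eval (fun i => w + y i) A) := by
  induction A using MvPolynomial.induction_on with
  | C a => simp
  | add p q hp hq =>
    simp only [map_add]
    exact hp.add hq
  | mul_X p i hp =>
    simp only [map_mul, MvPolynomial.eval_X]
    exact hp.mul (differentiable_id.add_const (y i))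

theorem p4_norm {n : ℕ} (y : Fin n → ℂ) (hy : ∑ i, y i = 0) (w : ℂ) :
    ∑ i, ‖w + y i‖ ^ 2 = n * ‖w‖ ^ 2 + ∑ i, ‖y i‖ ^ 2 := by
  have h1 : ∀ i, ‖w + y i‖ ^ 2 = ‖w‖ ^ 2 + ‖y i‖ ^ 2 + 2 * (w * (starRingEnd ℂ) (y i)).re := by
    intro i
    rw [← Complex.normSq_eq_norm_sq, ← Complex.normSq_eq_norm_sq, ← Complex.normSq_eq_norm_sq,
      Complex.normSq_add]
  rw [sum_congr rfl fun i _ => h1 i, sum_add_distrib, sum_add_distrib, sum_const, card_univ,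
    Fintype.card_fin, nsmul_eq_mul, ← mul_sum, ← Complex.re_sum, ← mul_sum, ← map_sum, hy]
  simp

theorem p4_hom {n : ℕ} (C : ℕ) (h : (Fin n → ℂ) → ℂ)
    (hhom : ∀ (b : ℂ) (x : Fin n → ℂ), h (fun i => b * x i) = b ^ C * h x)
    (Mh : ℝ) (hM : ∀ x : Fin n → ℂ, ∑ i, ‖x i‖ ^ 2 = 1 → ‖h x‖ ≤ Mh)
    (z : Fin n → ℂ) (hz : 0 < ∑ i, ‖z i‖ ^ 2) : ‖h z‖ ^ 2 ≤ (∑ i, ‖z i‖ ^ 2) ^ C * Mh ^ 2 := by
  set N : ℝ := ∑ i, ‖z i‖ ^ 2 with hN
  set r : ℝ := Real.sqrt N with hr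
  have hr0 : 0 < r := Real.sqrt_pos.2 hz
  have hr2 : r ^ 2 = N := Real.sq_sqrt hz.le
  have hrc : (r : ℂ) ≠ 0 := by exact_mod_cast hr0.ne'
  have h1 : z = fun i => (r : ℂ) * (z i / r) := by
    funext i
    field_simp
  have h2 : ∑ i, ‖z i / (r : ℂ)‖ ^ 2 = 1 := by
    have : ∀ i, ‖z i / (r : ℂ)‖ ^ 2 = ‖z i‖ ^ 2 / N := by
      intro i
      rw [norm_div, div_pow, Complex.norm_real, Real.norm_eq_abs, sq_abs, hr2]
    rw [sum_congr rfl fun i _ => this i, ← sum_div, ← hN, div_self hz.ne']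
  have h3 := hM _ h2
  have h4 : h z = (r : ℂ) ^ C * h (fun i => z i / r) := by
    conv_lhs => rw [h1]
    exact hhom _ _
  rw [h4, norm_mul, norm_pow, Complex.norm_real, Real.norm_eq_abs, abs_of_pos hr0, mul_pow, ← pow_mul,
    mul_comm C 2, pow_mul, hr2]
  exact mul_le_mul_of_nonneg_left (pow_le_pow_left₀ (norm_nonneg _) h3 2) (pow_nonneg hz.le _)

/-- P4: decay far from the point `(1, ..., 1)`. -/
theorem decay {n : ℕ} (hn : 0 < n) (C D : ℕ) (hDC : D ≤ C) (κ : ℝ) (hκ : 0 < κ)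
    (hκ' : κ ≤ 1 / 2) (hD : κ * C ≤ (C : ℝ) - D)
    (h : (Fin n → ℂ) → ℂ) (A : MvPolynomial (Fin n) ℂ)
    (hA : ∀ x, h x = (∑ i, x i) ^ (C - D) * MvPolynomial.eval x A)
    (hhom : ∀ (b : ℂ) (x : Fin n → ℂ), h (fun i => b * x i) = b ^ C * h x)
    (Mh : ℝ) (hM : ∀ x : Fin n → ℂ, ∑ i, ‖x i‖ ^ 2 = 1 → ‖h x‖ ≤ Mh)
    (x : Fin n → ℂ) (hx : ∑ i, ‖x i‖ ^ 2 = 1) (hl : ‖∑ i, x i‖ ^ 2 ≤ n * κ / 25) :
    ‖h x‖ ≤ Real.exp (-(κ * C)) * Mh := by
  have hn' : (0 : ℝ) < n := by exact_mod_cast hn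
  have hnc : (n : ℂ) ≠ 0 := by exact_mod_cast hn.ne'
  have hMh : 0 ≤ Mh := (norm_nonneg _).trans (hM x hx)
  set a : ℂ := (∑ i, x i) / n with ha
  set y : Fin n → ℂ := fun i => x i - a with hy
  have hy0 : ∑ i, y i = 0 := by
    rw [hy]
    simp only [sum_sub_distrib, sum_const, card_univ, Fintype.card_fin, nsmul_eq_mul]
    rw [ha]
    field_simp
    ring
  have hxy : ∀ i, x i = a + y i := fun i => by rw [hy]; ring
  set Y : ℝ := ∑ i, ‖y i‖ ^ 2 with hY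
  have hYeq : n * ‖a‖ ^ 2 + Y = 1 := by
    rw [← p4_norm y hy0 a, ← hx]
    exact sum_congr rfl fun i _ => by rw [← hxy i]
  have hna : n * ‖a‖ ^ 2 ≤ κ / 25 := by
    rw [ha, norm_div, div_pow, Complex.norm_natCast]
    rw [show (n : ℝ) * (‖∑ i, x i‖ ^ 2 / (n : ℝ) ^ 2) = ‖∑ i, x i‖ ^ 2 / n by
      field_simp]
    rw [div_le_iff₀ hn']
    linarith
  have hYl : 49 / 50 ≤ Y := by linarith
  have hY0 : 0 < Y := by linarith
  have hY1 : Y ≤ 1 := by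
    have : 0 ≤ n * ‖a‖ ^ 2 := by positivity
    linarith
  -- the radius
  set ρ : ℝ := Real.sqrt (κ * Y / n) with hρ
  have hρ0 : 0 < ρ := Real.sqrt_pos.2 (by positivity)
  have hρ2 : n * ρ ^ 2 = κ * Y := by
    rw [hρ, Real.sq_sqrt (by positivity)]
    field_simp
  set K2 : ℝ := ((1 + κ) * Y) ^ C * Mh ^ 2 / ((n : ℝ) ^ 2 * ρ ^ 2) ^ (C - D) with hK2
  have hden : 0 < ((n : ℝ) ^ 2 * ρ ^ 2) ^ (C - D) := by positivity
  have hK20 : 0 ≤ K2 := by positivity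
  set G : ℂ → ℂ := fun w => MvPolynomial.eval (fun i => w + y i) A with hG
  have hsum : ∀ w : ℂ, ∑ i, (w + y i) = n * w := by
    intro w
    rw [sum_add_distrib, hy0, sum_const, card_univ, Fintype.card_fin, nsmul_eq_mul, add_zero]
  have hval : ∀ w : ℂ, ‖h (fun i => w + y i)‖ ^ 2 = ((n : ℝ) ^ 2 * ‖w‖ ^ 2) ^ (C - D) * ‖G w‖ ^ 2 := by
    intro w
    rw [hA, hsum, norm_mul, norm_pow, norm_mul, Complex.norm_natCast, mul_pow, ← pow_mul, mul_comm (C - D) 2,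
      pow_mul, mul_pow]
  have hsph : ∀ w : ℂ, ‖w‖ = ρ → ‖G w‖ ^ 2 ≤ K2 := by
    intro w hw
    have h1 := p4_norm y hy0 w
    rw [hw, hρ2, ← hY] at h1
    have h1' : ∑ i, ‖w + y i‖ ^ 2 = (1 + κ) * Y := by rw [h1]; ring
    have h2 := p4_hom C h hhom Mh hM (fun i => w + y i) (by
      show 0 < ∑ i, ‖w + y i‖ ^ 2
      rw [h1']
      positivity)
    rw [hval w, hw] at h2
    have h3 : ∑ i, ‖(fun i => w + y i) i‖ ^ 2 = (1 + κ) * Y := h1'
    rw [h3] at h2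
    rw [hK2, le_div_iff₀ hden]
    linarith
  have hmax : ‖G a‖ ≤ Real.sqrt K2 := by
    refine Complex.norm_le_of_forall_mem_frontier_norm_le (U := Metric.ball (0 : ℂ) ρ) Metric.isBounded_ball
      (p4_diff y A).diffContOnCl ?_ ?_
    · intro w hw
      rw [frontier_ball _ hρ0.ne', mem_sphere_zero_iff_norm] at hw
      exact Real.le_sqrt_of_sq_le (hsph w hw)
    · rw [closure_ball _ hρ0.ne', mem_closedBall_zero_iff]
      refine Real.le_sqrt_of_sq_le ?_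
      rw [le_div_iff₀ hn']
      nlinarith
  have hmax2 : ‖G a‖ ^ 2 ≤ K2 := by
    have h1 := pow_le_pow_left₀ (norm_nonneg _) hmax 2
    rwa [Real.sq_sqrt hK20] at h1
  -- the value at `x`
  have hhx : ‖h x‖ ^ 2 ≤ ((1 + κ) * Y) ^ C * Mh ^ 2 * (‖a‖ ^ 2 / ρ ^ 2) ^ (C - D) := by
    have h1 : (fun i => a + y i) = x := funext fun i => (hxy i).symm
    have h2 := hval a
    rw [h1] at h2
    rw [h2]
    calc ((n : ℝ) ^ 2 * ‖a‖ ^ 2) ^ (C - D) * ‖G a‖ ^ 2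
        ≤ ((n : ℝ) ^ 2 * ‖a‖ ^ 2) ^ (C - D) * K2 := mul_le_mul_of_nonneg_left hmax2 (by positivity)
      _ = ((1 + κ) * Y) ^ C * Mh ^ 2 * (((n : ℝ) ^ 2 * ‖a‖ ^ 2) / ((n : ℝ) ^ 2 * ρ ^ 2)) ^ (C - D) := by
          rw [hK2, div_pow]
          ring
      _ = _ := by
          rw [mul_div_mul_left _ _ (by positivity)]
  have hratio : ‖a‖ ^ 2 / ρ ^ 2 ≤ 1 / 24 := by
    rw [div_le_iff₀ (by positivity)]
    have h1 : n * ‖a‖ ^ 2 * 24 ≤ n * ρ ^ 2 := by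
      rw [hρ2]
      nlinarith
    have h2 : n * (‖a‖ ^ 2 * 24) ≤ n * ρ ^ 2 := by linarith
    have h3 := le_of_mul_le_mul_left h2 hn'
    linarith
  have he3 : (1 : ℝ) / 24 ≤ Real.exp (-3) := by
    rw [Real.exp_neg, one_div]
    apply inv_anti₀ (Real.exp_pos 3)
    have h1 : Real.exp 3 = Real.exp 1 ^ 3 := by
      rw [← Real.exp_nat_mul]
      norm_num
    rw [h1]
    have h2 := Real.exp_one_lt_d9
    have h3 : (0 : ℝ) < Real.exp 1 := Real.exp_pos 1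
    calc Real.exp 1 ^ 3 ≤ (2.7182818286 : ℝ) ^ 3 := pow_le_pow_left₀ h3.le h2.le 3
      _ ≤ 24 := by norm_num
  have hfin : ‖h x‖ ^ 2 ≤ (Real.exp (-(κ * C)) * Mh) ^ 2 := by
    refine hhx.trans ?_
    have h1 : ((1 + κ) * Y) ^ C ≤ Real.exp (κ * C) := by
      calc ((1 + κ) * Y) ^ C ≤ (Real.exp κ) ^ C := by
            refine pow_le_pow_left₀ (by positivity) ?_ C
            have := Real.add_one_le_exp κ
            nlinarith
        _ = Real.exp (κ * C) := by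
            rw [← Real.exp_nat_mul]
            ring_nf
    have h2 : (‖a‖ ^ 2 / ρ ^ 2) ^ (C - D) ≤ Real.exp (-(3 * (κ * C))) := by
      calc (‖a‖ ^ 2 / ρ ^ 2) ^ (C - D) ≤ (Real.exp (-3)) ^ (C - D) :=
            pow_le_pow_left₀ (by positivity) (hratio.trans he3) _
        _ = Real.exp (((C - D : ℕ) : ℝ) * (-3)) := by rw [← Real.exp_nat_mul]
        _ ≤ Real.exp (-(3 * (κ * C))) := by
            rw [Real.exp_le_exp, Nat.cast_sub hDC]
            linarith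
    have h3 : (Real.exp (-(κ * C)) * Mh) ^ 2 = Real.exp (κ * C) * Mh ^ 2 * Real.exp (-(3 * (κ * C))) := by
      have h4 : Real.exp (κ * C) * Real.exp (-(3 * (κ * C))) = Real.exp (-(κ * C)) ^ 2 := by
        rw [← Real.exp_add, ← Real.exp_nat_mul]
        congr 1
        push_cast
        ring
      rw [mul_pow, ← h4]
      ring
    rw [h3]
    exact mul_le_mul (mul_le_mul_of_nonneg_right h1 (by positivity)) h2 (by positivity) (by positivity)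
  exact le_of_sq_le_sq hfin (by positivity)

end Pool.Agent.Helper90.ZD
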