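import Pool.Agent.Helper90.ZD.Defs

open Finset

namespace Pool.Agent.Helper90.ZD

private theorem sv_geo {δ : ℝ} (hδ : 0 < δ) (w : ℂ) (hw : ‖w‖ = 1) (h1 : δ ≤ ‖w - 1‖)
    (a b : ℕ) (hab : a ≤ b) : ‖∑ j ∈ Finset.Ico a b, w ^ j‖ ≤ 2 / δ := by
  have hne : w ≠ 1 := by
    rintro rfl
    simp at h1
    linarith
  rw [geom_sum_Ico hne hab, norm_div]
  have h2 : ‖w ^ b - w ^ a‖ ≤ 2 := by
    calc ‖w ^ b - w ^ a‖ ≤ ‖w ^ b‖ + ‖w ^ a‖ := norm_sub_le _ _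
      _ = 2 := by
        simp only [norm_pow, hw, one_pow]
        norm_num
  exact div_le_div₀ (by norm_num) h2 hδ h1

private theorem sv_expand {n : ℕ} (z x : Fin n → ℂ) (A B : Finset ℕ) :
    ((∑ j' ∈ A, ∑ j ∈ B,
        ‖∑ i, z i ^ j * (starRingEnd ℂ (z i)) ^ j' * x i‖ ^ 2 : ℝ) : ℂ)
      = ∑ i, ∑ l, x i * starRingEnd ℂ (x l) *
          ((∑ j ∈ B, (z i * starRingEnd ℂ (z l)) ^ j) *
            (∑ j' ∈ A, (starRingEnd ℂ (z i) * z l) ^ j')) := by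
  have h1 : ((∑ j' ∈ A, ∑ j ∈ B,
        ‖∑ i, z i ^ j * (starRingEnd ℂ (z i)) ^ j' * x i‖ ^ 2 : ℝ) : ℂ)
      = ∑ j' ∈ A, ∑ j ∈ B, ∑ i, ∑ l, x i * starRingEnd ℂ (x l) *
          ((z i * starRingEnd ℂ (z l)) ^ j * (starRingEnd ℂ (z i) * z l) ^ j') := by
    push_cast
    refine Finset.sum_congr rfl fun j' _ => Finset.sum_congr rfl fun j _ => ?_
    rw [← Complex.mul_conj', map_sum, Finset.sum_mul_sum]
    refine Finset.sum_congr rfl fun i _ => Finset.sum_congr rfl fun l _ => ?_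
    simp only [map_mul, map_pow, Complex.conj_conj, mul_pow]
    ring
  rw [h1]
  calc ∑ j' ∈ A, ∑ j ∈ B, ∑ i, ∑ l, x i * starRingEnd ℂ (x l) *
          ((z i * starRingEnd ℂ (z l)) ^ j * (starRingEnd ℂ (z i) * z l) ^ j')
      = ∑ j' ∈ A, ∑ i, ∑ j ∈ B, ∑ l, x i * starRingEnd ℂ (x l) *
          ((z i * starRingEnd ℂ (z l)) ^ j * (starRingEnd ℂ (z i) * z l) ^ j') :=
        Finset.sum_congr rfl fun j' _ => Finset.sum_comm
    _ = ∑ j' ∈ A, ∑ i, ∑ l, ∑ j ∈ B, x i * starRingEnd ℂ (x l) *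
          ((z i * starRingEnd ℂ (z l)) ^ j * (starRingEnd ℂ (z i) * z l) ^ j') :=
        Finset.sum_congr rfl fun j' _ => Finset.sum_congr rfl fun i _ => Finset.sum_comm
    _ = ∑ i, ∑ j' ∈ A, ∑ l, ∑ j ∈ B, x i * starRingEnd ℂ (x l) *
          ((z i * starRingEnd ℂ (z l)) ^ j * (starRingEnd ℂ (z i) * z l) ^ j') :=
        Finset.sum_comm
    _ = ∑ i, ∑ l, ∑ j' ∈ A, ∑ j ∈ B, x i * starRingEnd ℂ (x l) *
          ((z i * starRingEnd ℂ (z l)) ^ j * (starRingEnd ℂ (z i) * z l) ^ j') :=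
        Finset.sum_congr rfl fun i _ => Finset.sum_comm
    _ = _ := by
        refine Finset.sum_congr rfl fun i _ => Finset.sum_congr rfl fun l _ => ?_
        rw [Finset.sum_comm, Finset.sum_mul_sum, Finset.mul_sum]
        refine Finset.sum_congr rfl fun j _ => ?_
        rw [Finset.mul_sum]

private theorem sv_dbl {n M : ℕ} (hM : 0 < M) (z : Fin n → ℂ) (hz : ∀ i, ‖z i‖ = 1) (δ : ℝ)
    (hδ : 0 < δ) (hsep : ∀ i j, i ≠ j → δ ≤ ‖z i - z j‖)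
    (hMδ : 4 * (n : ℝ) ≤ (M * δ) ^ 2) (x : Fin n → ℂ) :
    ∑ j' ∈ Finset.Ico M (2 * M), ∑ j ∈ Finset.Ico 0 (3 * M),
        ‖∑ i, z i ^ j * (starRingEnd ℂ (z i)) ^ j' * x i‖ ^ 2
      ≤ 4 * (M : ℝ) ^ 2 * ∑ i, ‖x i‖ ^ 2 := by
  have hM0 : (0 : ℝ) < M := by exact_mod_cast hM
  have hzc : ∀ i, z i * starRingEnd ℂ (z i) = 1 := by
    intro i
    rw [Complex.mul_conj', hz i]
    norm_num
  have hnc : ∀ i, ‖starRingEnd ℂ (z i)‖ = 1 := fun i => by rw [RCLike.norm_conj, hz i]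
  set T : ℝ := ∑ j' ∈ Finset.Ico M (2 * M), ∑ j ∈ Finset.Ico 0 (3 * M),
        ‖∑ i, z i ^ j * (starRingEnd ℂ (z i)) ^ j' * x i‖ ^ 2 with hT
  have hT0 : 0 ≤ T := Finset.sum_nonneg fun j' _ => Finset.sum_nonneg fun j _ => by positivity
  have h1 : T = ‖(T : ℂ)‖ := by
    rw [Complex.norm_real, Real.norm_eq_abs, abs_of_nonneg hT0]
  have h2 : ‖(T : ℂ)‖ ≤ ∑ i, ∑ l, ‖x i‖ * ‖x l‖ *
      ((if i = l then 3 * (M : ℝ) ^ 2 else 0) + 4 / δ ^ 2) := by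
    rw [hT, sv_expand]
    refine (norm_sum_le _ _).trans (Finset.sum_le_sum fun i _ => ?_)
    refine (norm_sum_le _ _).trans (Finset.sum_le_sum fun l _ => ?_)
    rw [norm_mul, norm_mul, RCLike.norm_conj, norm_mul]
    refine mul_le_mul_of_nonneg_left ?_ (by positivity)
    by_cases hil : i = l
    · subst hil
      rw [if_pos rfl, hzc i, mul_comm (starRingEnd ℂ (z i)) (z i), hzc i]
      simp only [one_pow, Finset.sum_const, Nat.card_Ico, nsmul_eq_mul, mul_one, tsub_zero]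
      have e1 : 2 * M - M = M := by omega
      rw [e1, Complex.norm_natCast, Complex.norm_natCast]
      have : (0 : ℝ) ≤ 4 / δ ^ 2 := by positivity
      push_cast
      nlinarith
    · rw [if_neg hil, zero_add]
      have hw1 : δ ≤ ‖z i * starRingEnd ℂ (z l) - 1‖ := by
        have : z i * starRingEnd ℂ (z l) - 1 = (z i - z l) * starRingEnd ℂ (z l) := by
          rw [sub_mul, hzc l]
        rw [this, norm_mul, hnc l, mul_one]
        exact hsep i l hil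
      have hw2 : δ ≤ ‖starRingEnd ℂ (z i) * z l - 1‖ := by
        have : starRingEnd ℂ (z i) * z l - 1 = (z l - z i) * starRingEnd ℂ (z i) := by
          rw [sub_mul, hzc i]
          ring
        rw [this, norm_mul, hnc i, mul_one]
        exact hsep l i (Ne.symm hil)
      have g1 := sv_geo hδ _ (by rw [norm_mul, hz i, hnc l, mul_one]) hw1 0 (3 * M) (by omega)
      have g2 := sv_geo hδ _ (by rw [norm_mul, hz l, hnc i, mul_one]) hw2 M (2 * M) (by omega)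
      calc _ ≤ (2 / δ) * (2 / δ) := mul_le_mul g1 g2 (norm_nonneg _) (by positivity)
        _ = 4 / δ ^ 2 := by
          field_simp
          norm_num
  have h3 : ∑ i, ∑ l, ‖x i‖ * ‖x l‖ *
      ((if i = l then 3 * (M : ℝ) ^ 2 else 0) + 4 / δ ^ 2)
      = 3 * (M : ℝ) ^ 2 * ∑ i, ‖x i‖ ^ 2 + 4 / δ ^ 2 * (∑ i, ‖x i‖) ^ 2 := by
    have : ∀ i l : Fin n, ‖x i‖ * ‖x l‖ *
      ((if i = l then 3 * (M : ℝ) ^ 2 else 0) + 4 / δ ^ 2)
      = (if i = l then 3 * (M : ℝ) ^ 2 * ‖x i‖ ^ 2 else 0) + 4 / δ ^ 2 * (‖x i‖ * ‖x l‖) := by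
      intro i l
      by_cases hil : i = l
      · subst hil
        rw [if_pos rfl, if_pos rfl]
        ring
      · rw [if_neg hil, if_neg hil]
        ring
    simp_rw [this, Finset.sum_add_distrib]
    congr 1
    · rw [Finset.mul_sum]
      refine Finset.sum_congr rfl fun i _ => ?_
      simp
    · rw [sq (∑ i, ‖x i‖), Finset.sum_mul_sum, Finset.mul_sum]
      refine Finset.sum_congr rfl fun i _ => ?_
      rw [Finset.mul_sum]
  have h4 : (∑ i, ‖x i‖) ^ 2 ≤ n * ∑ i, ‖x i‖ ^ 2 := by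
    have := sq_sum_le_card_mul_sum_sq (s := (Finset.univ : Finset (Fin n))) (f := fun i => ‖x i‖)
    simpa using this
  have h5 : 4 / δ ^ 2 * (∑ i, ‖x i‖) ^ 2 ≤ (M : ℝ) ^ 2 * ∑ i, ‖x i‖ ^ 2 := by
    have hS : 0 ≤ ∑ i, ‖x i‖ ^ 2 := Finset.sum_nonneg fun i _ => by positivity
    have h6 : 4 / δ ^ 2 * n ≤ (M : ℝ) ^ 2 := by
      rw [div_mul_eq_mul_div, div_le_iff₀ (by positivity)]
      calc 4 * (n : ℝ) ≤ (M * δ) ^ 2 := hMδ
        _ = (M : ℝ) ^ 2 * δ ^ 2 := by ring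
    calc 4 / δ ^ 2 * (∑ i, ‖x i‖) ^ 2 ≤ 4 / δ ^ 2 * (n * ∑ i, ‖x i‖ ^ 2) :=
          mul_le_mul_of_nonneg_left h4 (by positivity)
      _ = (4 / δ ^ 2 * n) * ∑ i, ‖x i‖ ^ 2 := by ring
      _ ≤ (M : ℝ) ^ 2 * ∑ i, ‖x i‖ ^ 2 := mul_le_mul_of_nonneg_right h6 hS
  calc T = ‖(T : ℂ)‖ := h1
    _ ≤ _ := h2
    _ = _ := h3
    _ ≤ 3 * (M : ℝ) ^ 2 * ∑ i, ‖x i‖ ^ 2 + (M : ℝ) ^ 2 * ∑ i, ‖x i‖ ^ 2 := by linarith
    _ = 4 * (M : ℝ) ^ 2 * ∑ i, ‖x i‖ ^ 2 := by ring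

/-- P5: large sieve. Proof: `M * (left side) ≤ ∑ over j' in [M, 2M), j in [0, 3M)` of
`‖f (j - j')‖ ^ 2`; expand the square; geometric sums are `≤ 2 / δ`; Schur. -/
theorem sieve {n M : ℕ} (hM : 0 < M) (z : Fin n → ℂ) (hz : ∀ i, ‖z i‖ = 1) (δ : ℝ)
    (hδ : 0 < δ) (hsep : ∀ i j, i ≠ j → δ ≤ ‖z i - z j‖)
    (hMδ : 4 * (n : ℝ) ≤ (M * δ) ^ 2) (x : Fin n → ℂ) :
    ∑ k ∈ Finset.Icc (-(M : ℤ)) M, ‖∑ i, z i ^ k * x i‖ ^ 2
      ≤ 4 * M * ∑ i, ‖x i‖ ^ 2 := by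
  have hM0 : (0 : ℝ) < M := by exact_mod_cast hM
  have hdbl := sv_dbl hM z hz δ hδ hsep hMδ x
  have hz0 : ∀ i, z i ≠ 0 := fun i h => by
    have := hz i
    rw [h, norm_zero] at this
    exact zero_ne_one this
  have hinv : ∀ i, starRingEnd ℂ (z i) = (z i)⁻¹ := by
    intro i
    refine eq_inv_of_mul_eq_one_right ?_
    rw [Complex.mul_conj', hz i]
    norm_num
  have key : ∀ j' ∈ Finset.Ico M (2 * M),
      ∑ k ∈ Finset.Icc (-(M : ℤ)) M, ‖∑ i, z i ^ k * x i‖ ^ 2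
        ≤ ∑ j ∈ Finset.Ico 0 (3 * M),
          ‖∑ i, z i ^ j * (starRingEnd ℂ (z i)) ^ j' * x i‖ ^ 2 := by
    intro j' hj'
    rw [Finset.mem_Ico] at hj'
    have hval : ∀ k ∈ Finset.Icc (-(M : ℤ)) M, ‖∑ i, z i ^ k * x i‖ ^ 2
        = ‖∑ i, z i ^ (k + j').toNat * (starRingEnd ℂ (z i)) ^ j' * x i‖ ^ 2 := by
      intro k hk
      rw [Finset.mem_Icc] at hk
      congr 2
      refine Finset.sum_congr rfl fun i _ => ?_
      congr 1
      have hk2 : (((k + j').toNat : ℕ) : ℤ) = k + j' := Int.toNat_of_nonneg (by omega)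
      rw [hinv i, ← zpow_natCast (z i) (k + j').toNat, hk2, zpow_add₀ (hz0 i), inv_pow,
        zpow_natCast, mul_assoc, mul_inv_cancel₀ (pow_ne_zero _ (hz0 i)), mul_one]
    rw [Finset.sum_congr rfl hval]
    have hinj : Set.InjOn (fun k : ℤ => (k + j').toNat) (Finset.Icc (-(M : ℤ)) M) := by
      intro a ha b hb hab
      simp only [Finset.coe_Icc, Set.mem_Icc] at ha hb
      simp only at hab
      omega
    rw [← Finset.sum_image (s := Finset.Icc (-(M : ℤ)) M) (g := fun k : ℤ => (k + j').toNat)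
      (f := fun j => ‖∑ i, z i ^ j * (starRingEnd ℂ (z i)) ^ j' * x i‖ ^ 2)
      (fun a ha b hb hab => hinj ha hb hab)]
    refine Finset.sum_le_sum_of_subset_of_nonneg ?_ fun _ _ _ => by positivity
    intro j hj
    rw [Finset.mem_image] at hj
    obtain ⟨k, hk, rfl⟩ := hj
    rw [Finset.mem_Icc] at hk
    rw [Finset.mem_Ico]
    omega
  have h1 : (M : ℝ) * ∑ k ∈ Finset.Icc (-(M : ℤ)) M, ‖∑ i, z i ^ k * x i‖ ^ 2
      ≤ 4 * (M : ℝ) ^ 2 * ∑ i, ‖x i‖ ^ 2 := by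
    refine le_trans ?_ hdbl
    refine le_trans (le_of_eq ?_) (Finset.sum_le_sum key)
    rw [Finset.sum_const, Nat.card_Ico, nsmul_eq_mul]
    have e1 : 2 * M - M = M := by omega
    rw [e1]
  have h2 : (M : ℝ) * ∑ k ∈ Finset.Icc (-(M : ℤ)) M, ‖∑ i, z i ^ k * x i‖ ^ 2
      ≤ M * (4 * M * ∑ i, ‖x i‖ ^ 2) := by
    refine h1.trans (le_of_eq ?_)
    ring
  exact le_of_mul_le_mul_left h2 hM0

end Pool.Agent.Helper90.ZD
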