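import Pool.Agent.Helper90.ZD.Defs
import Pool.Agent.Helper89.ZD.P6a
import Pool.Agent.Helper60.ZD.P6b

open Finset

namespace Pool.Agent.Helper90.ZD

/-- P6a: the test polynomial is small where `‖1 + z‖ ≤ 2 ρ`.  Proof: with
`[a] = z ^ a * (1 + z) ^ (2M - a)` the operator `k` (that is `z d/dz - M`) maps `[a]` to
`(a - M) [a] + (2M - a) [a+1]`, so the sum of the absolute values of the coefficients grows at
most by the factor `1 + 3 M / |l|` for every `l ∈ E`. -/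
theorem test_small (M : ℕ) (E : Finset ℤ) (hE : ∀ l ∈ E, l ≠ 0) (ρ : ℝ) (hρ : 1 / 2 ≤ ρ)
    (z : ℂ) (hz : ‖z‖ = 1) (hz' : ‖1 + z‖ ≤ 2 * ρ) :
    ‖∑ k ∈ Finset.Icc (-(M : ℤ)) M, (tc M E k : ℂ) * z ^ k‖
      ≤ ρ ^ (2 * M) * ∏ l ∈ E, (1 + 3 * (M : ℝ) / |(l : ℝ)|) :=
  Pool.Agent.Helper89.ZD.test_small M E hE ρ hρ z hz hz'

/-- P6b: sum of the absolute values. -/
theorem test_sum (M : ℕ) (E : Finset ℤ) (hE : ∀ l ∈ E, l ≠ 0) :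
    ∑ k ∈ Finset.Icc (-(M : ℤ)) M, |tc M E k| ≤ ∏ l ∈ E, (1 + (M : ℝ) / |(l : ℝ)|) :=
  Pool.Agent.Helper60.ZD.test_sum M E hE

/-- P6c: the coefficient at `0`. -/
theorem tc_zero (M : ℕ) (E : Finset ℤ) : 1 / (2 * (M : ℝ) + 1) ≤ tc M E 0 :=
  Pool.Agent.Helper60.ZD.tc_zero M E

/-- P6d: zero coefficients. -/
theorem tc_mem (M : ℕ) (E : Finset ℤ) (l : ℤ) (hl : l ∈ E) (h0 : l ≠ 0) : tc M E l = 0 :=
  Pool.Agent.Helper60.ZD.tc_mem M E l hl h0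

/-- P6e: the product.  `x ^ j / j! ≤ exp x` with `x = 4 M θ` for the positive and for the
negative elements. -/
theorem prod_le (M : ℕ) (E : Finset ℤ) (hE : ∀ l ∈ E, l ≠ 0 ∧ |l| ≤ M) (θ : ℝ) (hθ : 0 < θ)
    (hθ' : θ ≤ 1) (hc : (E.card : ℝ) ≤ θ * M) :
    ∏ l ∈ E, (1 + 3 * (M : ℝ) / |(l : ℝ)|)
      ≤ Real.exp (2 * θ * (4 + Real.log (1 / θ)) * M) :=
  Pool.Agent.Helper60.ZD.prod_le M E hE θ hθ hθ' hc

end Pool.Agent.Helper90.ZD
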