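import Pool.Agent.Helper90.ZD.Defs

open Finset

namespace Pool.Agent.Helper90.ZD

private noncomputable def hp_h16 {n : ℕ} (H : (Fin n → ℕ) → ℂ) (C : ℕ) :
    MvPolynomial (Fin n) ℂ :=
  ∑ c ∈ Sig n C, MvPolynomial.monomial (Finsupp.equivFunOnFinite.symm c)
    ((Nat.multinomial Finset.univ c : ℂ) * H c)

private theorem eval_hp_h16 {n : ℕ} (H : (Fin n → ℕ) → ℂ) (C : ℕ) (x : Fin n → ℂ) :
    MvPolynomial.eval x (hp_h16 H C) = hval H C x := by
  unfold hp_h16 hval
  rw [map_sum]
  refine Finset.sum_congr rfl fun c _ => ?_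
  rw [MvPolynomial.eval_monomial, Finsupp.prod_fintype _ _ fun i => pow_zero _]
  rfl

private theorem hp_mul_h16 {n : ℕ} (H : (Fin n → ℕ) → ℂ) (C : ℕ) (i : Fin n) :
    hp_h16 (fun c => (c i : ℂ) * H c) C =
      MvPolynomial.X i * MvPolynomial.pderiv i (hp_h16 H C) := by
  unfold hp_h16
  rw [map_sum, Finset.mul_sum]
  refine Finset.sum_congr rfl fun c _ => ?_
  rw [MvPolynomial.X_mul_pderiv_monomial, MvPolynomial.smul_monomial]
  congr 1
  simp only [Finsupp.coe_equivFunOnFinite_symm, nsmul_eq_mul]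
  ring

private theorem hp_one_h16 {n : ℕ} (C : ℕ) :
    hp_h16 (fun _ : Fin n → ℕ => (1 : ℂ)) C = (∑ i, MvPolynomial.X i) ^ C := by
  rw [Finset.sum_pow_eq_sum_piAntidiag]
  unfold hp_h16
  refine Finset.sum_congr rfl fun c _ => ?_
  rw [MvPolynomial.monomial_eq, Finsupp.prod_fintype _ _ fun i => pow_zero _, mul_one, map_natCast]
  rfl

private theorem hp_mono_h16 {n : ℕ} (C : ℕ) : ∀ (d : ℕ) (s : Fin n →₀ ℕ), s.degree = d → d ≤ C →
    ∃ A : MvPolynomial (Fin n) ℂ, hp_h16 (fun c => ∏ j, (c j : ℂ) ^ s j) C =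
      (∑ i, MvPolynomial.X i) ^ (C - d) * A := by
  intro d
  induction d with
  | zero =>
    intro s hs _
    refine ⟨1, ?_⟩
    have h0 : s = 0 := by
      rwa [Finsupp.degree_eq_zero_iff] at hs
    subst h0
    rw [mul_one, Nat.sub_zero, ← hp_one_h16]
    congr 1
    funext c
    simp
  | succ d ih =>
    intro s hs hd
    obtain ⟨i, hi⟩ : ∃ i, s i ≠ 0 := by
      by_contra h
      push Not at h
      have : s = 0 := Finsupp.ext h
      rw [this, map_zero] at hs
      omega
    set s' : Fin n →₀ ℕ := s - Finsupp.single i 1 with hs'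
    have e1 : s = s' + Finsupp.single i 1 := by
      rw [hs']
      refine (tsub_add_cancel_of_le ?_).symm
      rw [Finsupp.single_le_iff]
      omega
    have e2 : s'.degree = d := by
      have h := congrArg Finsupp.degree e1
      rw [map_add, hs, Finsupp.degree_single] at h
      omega
    obtain ⟨A, hA⟩ := ih s' e2 (by omega)
    have e3 : (fun c : Fin n → ℕ => ∏ j, (c j : ℂ) ^ s j) =
        fun c => (c i : ℂ) * ∏ j, (c j : ℂ) ^ s' j := by
      funext c
      rw [e1]
      simp only [Finsupp.coe_add, Pi.add_apply, pow_add, Finset.prod_mul_distrib]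
      have : ∏ j, (c j : ℂ) ^ (Finsupp.single i 1 : Fin n →₀ ℕ) j = c i := by
        rw [Finset.prod_eq_single i]
        · simp
        · intro j _ hj
          rw [Finsupp.single_apply, if_neg (Ne.symm hj), pow_zero]
        · intro h
          exact absurd (Finset.mem_univ _) h
      rw [this]
      ring
    rw [e3, hp_mul_h16, hA]
    obtain ⟨m, hm⟩ : ∃ m, C - d = m + 1 := ⟨C - d - 1, by omega⟩
    have hm' : C - (d + 1) = m := by omega
    rw [hm, hm', MvPolynomial.pderiv_mul, MvPolynomial.pderiv_pow]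
    have e4 : MvPolynomial.pderiv i (∑ j, MvPolynomial.X j : MvPolynomial (Fin n) ℂ) = 1 := by
      rw [map_sum]
      simp only [MvPolynomial.pderiv_X]
      rw [Finset.sum_eq_single i]
      · simp
      · intro j _ hj
        rw [Pi.single_eq_of_ne hj]
      · intro h
        exact absurd (Finset.mem_univ _) h
    rw [e4]
    refine ⟨MvPolynomial.X i * (((m + 1 : ℕ) : MvPolynomial (Fin n) ℂ) * A +
      (∑ j, MvPolynomial.X j) * MvPolynomial.pderiv i A), ?_⟩
    rw [Nat.add_sub_cancel, pow_succ]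
    ring

/-- P1: the form of a polynomial of degree `≤ D` is divisible by `(∑ x i) ^ (C - D)`. -/
theorem hval_div {n C D : ℕ} (p : MvPolynomial (Fin n) ℂ) (hp : p.totalDegree ≤ D)
    (hDC : D ≤ C) :
    ∃ A : MvPolynomial (Fin n) ℂ, ∀ x : Fin n → ℂ,
      hval (pv p) C x = (∑ i, x i) ^ (C - D) * MvPolynomial.eval x A := by
  have h1 : ∀ s ∈ p.support, ∃ A : MvPolynomial (Fin n) ℂ,
      hp_h16 (fun c => ∏ j, (c j : ℂ) ^ s j) C = (∑ i, MvPolynomial.X i) ^ (C - D) * A := by
    intro s hs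
    have h2 : s.degree ≤ D := by
      refine le_trans ?_ hp
      have := MvPolynomial.le_totalDegree hs
      rwa [Finsupp.sum_fintype _ _ fun i => rfl, ← Finsupp.degree_eq_sum] at this
    obtain ⟨A, hA⟩ := hp_mono_h16 C s.degree s rfl (h2.trans hDC)
    refine ⟨(∑ i, MvPolynomial.X i) ^ (D - s.degree) * A, ?_⟩
    rw [hA, ← mul_assoc, ← pow_add]
    congr 2
    omega
  choose! A hA using h1
  refine ⟨∑ s ∈ p.support, MvPolynomial.C (p.coeff s) * A s, fun x => ?_⟩
  rw [map_sum, Finset.mul_sum]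
  have h3 : hval (pv p) C x =
      ∑ s ∈ p.support, p.coeff s * hval (fun c => ∏ j, (c j : ℂ) ^ s j) C x := by
    unfold hval pv
    simp only [Finset.mul_sum]
    rw [Finset.sum_comm]
    refine Finset.sum_congr rfl fun c _ => ?_
    rw [MvPolynomial.eval_eq', Finset.mul_sum, Finset.sum_mul]
    refine Finset.sum_congr rfl fun s _ => ?_
    ring
  rw [h3]
  refine Finset.sum_congr rfl fun s hs => ?_
  rw [← eval_hp_h16, hA s hs]
  simp only [map_mul, map_pow, map_sum, MvPolynomial.eval_X, MvPolynomial.eval_C]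
  ring

end Pool.Agent.Helper90.ZD
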