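import Pool.Agent.Helper90.ZD.P1
import Pool.Agent.Helper90.ZD.P2
import Pool.Agent.Helper90.ZD.P3
import Pool.Agent.Helper90.ZD.P4
import Pool.Agent.Helper90.ZD.P5
import Pool.Agent.Helper90.ZD.P6
import Pool.Agent.Helper71.ZD.P7

open Finset

namespace Pool.Agent.Helper90.ZD

/-- P7: the zero estimate, explicit form. -/
theorem zero_core {n : ℕ} (hn : 0 < n) (C D M : ℕ) (hC : 0 < C) (hM : 0 < M) (hDC : D ≤ C)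
    (ε κ θ δ : ℝ) (hε : 0 < ε) (hε' : ε ≤ 1 / 2) (hκ : 0 < κ) (hκ' : κ ≤ 1 / 2)
    (hD : κ * C ≤ (C : ℝ) - D) (hδ : 0 < δ) (hθ : 0 < θ) (hθ' : θ ≤ 1)
    (hMδ : 4 * (n : ℝ) ≤ (M * δ) ^ 2) (hθn : 100 ≤ θ * n * κ)
    (hth : 2 * θ * (4 + Real.log (1 / θ)) ≤ ε ^ 2 / 2)
    (hnum : Real.exp (-(ε ^ 2 * M / 2)) * ((C : ℝ) + 1) ^ n
      + Real.exp (ε ^ 2 * M / 2 - κ * C) < 1 / (2 * (M : ℝ) + 1))
    (t : Fin n → ℝ) (hsep : ∀ i j, i ≠ j → δ ≤ ‖ee (t i) - ee (t j)‖) (β : ℝ)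
    (p : MvPolynomial (Fin n) ℂ) (hp : p.totalDegree ≤ D)
    (hz : ∀ c ∈ Sig n C, Int.fract (∑ i, t i * c i - β) < ε → pv p c = 0) :
    ∀ c ∈ Sig n C, pv p c = 0 :=
  Pool.Agent.Helper71.ZD.zero_core hn C D M hC hM hDC ε κ θ δ hε hε' hκ hκ' hD hδ hθ hθ' hMδ hθn
    hth hnum t hsep β p hp hz

end Pool.Agent.Helper90.ZD
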